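import Mathlib

set_option autoImplicit false
open scoped Pointwise
open Filter Topology

namespace Pool.Agent.Lib.MP_5893d4_al

instance fact5 : Fact (Nat.Prime 5) := ⟨by norm_num⟩
instance fact7 : Fact (Nat.Prime 7) := ⟨by norm_num⟩

/-- The affine group `x ↦ u x + a` over a commutative ring. -/
@[ext]
structure Aff (R : Type) [CommRing R] where
  a : R
  u : Rˣ

namespace Aff

variable {R : Type} [CommRing R]

instance : Mul (Aff R) := ⟨fun x y => ⟨x.a + x.u * y.a, x.u * y.u⟩⟩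
instance : One (Aff R) := ⟨⟨0, 1⟩⟩
instance : Inv (Aff R) := ⟨fun x => ⟨-((x.u⁻¹ : Rˣ) * x.a), x.u⁻¹⟩⟩

@[simp] lemma mul_a (x y : Aff R) : (x * y).a = x.a + x.u * y.a := rfl
@[simp] lemma mul_u (x y : Aff R) : (x * y).u = x.u * y.u := rfl
@[simp] lemma one_a : (1 : Aff R).a = 0 := rfl
@[simp] lemma one_u : (1 : Aff R).u = 1 := rfl
@[simp] lemma inv_a (x : Aff R) : (x⁻¹).a = -((x.u⁻¹ : Rˣ) * x.a) := rfl
@[simp] lemma inv_u (x : Aff R) : (x⁻¹).u = x.u⁻¹ := rfl

instance : Group (Aff R) :=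
  Group.ofLeftAxioms
    (by intro x y z; ext <;> simp [mul_add, mul_assoc, add_assoc])
    (by intro x; ext <;> simp)
    (by intro x; ext <;> simp)

/-- Functoriality. -/
def map {S : Type} [CommRing S] (f : R →+* S) : Aff R →* Aff S where
  toFun x := ⟨f x.a, Units.map f.toMonoidHom x.u⟩
  map_one' := by ext <;> simp
  map_mul' := by intro x y; ext <;> simp

@[simp] lemma map_a {S : Type} [CommRing S] (f : R →+* S) (x : Aff R) : (map f x).a = f x.a := rfl
@[simp] lemma map_u {S : Type} [CommRing S] (f : R →+* S) (x : Aff R) :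
    (map f x).u = Units.map f.toMonoidHom x.u := rfl

end Aff

/-- A precompact Hausdorff group topology, as in the frozen statement. -/
def PHG (G : Type) [Group G] (t : TopologicalSpace G) : Prop :=
  @IsTopologicalGroup G t _ ∧ @T2Space G t ∧
    ∀ U ∈ @nhds G t 1, ∃ F : Finset G, (F : Set G) * U = Set.univ

/-! Topologies from a sequence of homomorphisms to finite groups. -/

section seq

variable {G : Type} [Group G] {H : ℕ → Type} [∀ n, Group (H n)] [∀ n, Finite (H n)]
  (f : ∀ n, G →* H n)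

/-- The topology on `G` having the kernels of the `f n` as a subbase at `1`. -/
def seqTop : TopologicalSpace G := ⨅ n, TopologicalSpace.induced (f n) ⊥

lemma seqTop_group : @IsTopologicalGroup G (seqTop f) _ := by
  apply topologicalGroup_iInf
  intro n
  letI : TopologicalSpace (H n) := ⊥
  haveI : DiscreteTopology (H n) := ⟨rfl⟩
  exact topologicalGroup_induced (f n)

lemma nhds_seqTop : @nhds G (seqTop f) 1 = ⨅ n, 𝓟 ((f n).ker : Set G) := by
  rw [seqTop, nhds_iInf]
  congr 1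
  funext n
  have h1 : @nhds G (TopologicalSpace.induced (f n) ⊥) 1 = comap (f n) (@nhds (H n) ⊥ ((f n) 1)) :=
    @nhds_induced _ _ ⊥ (f n) 1
  have h2 : @nhds (H n) ⊥ ((f n) 1) = pure ((f n) 1) := by
    letI : TopologicalSpace (H n) := ⊥
    haveI : DiscreteTopology (H n) := ⟨rfl⟩
    rw [nhds_discrete]
  rw [h1, h2, map_one, ← principal_singleton, comap_principal]
  rfl

lemma mem_nhds_seqTop (hmono : ∀ m n, m ≤ n → (f n).ker ≤ (f m).ker) (U : Set G) :
    U ∈ @nhds G (seqTop f) 1 ↔ ∃ n, ((f n).ker : Set G) ⊆ U := by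
  rw [nhds_seqTop, mem_iInf_of_directed]
  · simp
  · intro m n
    refine ⟨max m n, ?_, ?_⟩
    · simpa using hmono m (max m n) (le_max_left _ _)
    · simpa using hmono n (max m n) (le_max_right _ _)

lemma seqTop_PHG (hmono : ∀ m n, m ≤ n → (f n).ker ≤ (f m).ker)
    (hinj : ∀ g : G, (∀ n, f n g = 1) → g = 1) : PHG G (seqTop f) := by
  refine ⟨seqTop_group f, ?_, ?_⟩
  · letI := seqTop f
    haveI := seqTop_group f
    refine IsTopologicalGroup.t2Space_of_one_sep ?_
    intro x hx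
    have : ∃ n, f n x ≠ 1 := by
      by_contra hcon
      push Not at hcon
      exact hx (hinj x hcon)
    obtain ⟨n, hn⟩ := this
    refine ⟨(f n).ker, ?_, ?_⟩
    · rw [mem_nhds_seqTop f hmono]
      exact ⟨n, le_rfl⟩
    · simpa [MonoidHom.mem_ker] using hn
  · intro U hU
    rw [mem_nhds_seqTop f hmono] at hU
    obtain ⟨n, hn⟩ := hU
    -- choose a section of `f n` on its range
    classical
    have hfin : (Set.range (f n)).Finite := Set.toFinite _
    let s : H n → G := fun h => if hh : h ∈ Set.range (f n) then hh.choose else 1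
    have hs : ∀ h ∈ Set.range (f n), f n (s h) = h := by
      intro h hh
      simp only [s, dif_pos hh]
      exact hh.choose_spec
    refine ⟨hfin.toFinset.image s, ?_⟩
    rw [Set.eq_univ_iff_forall]
    intro g
    rw [Set.mem_mul]
    refine ⟨s (f n g), ?_, (s (f n g))⁻¹ * g, hn ?_, by group⟩
    · simp only [Finset.coe_image, Set.mem_image]
      exact ⟨f n g, by simp, rfl⟩
    · have := hs (f n g) ⟨g, rfl⟩
      simp [MonoidHom.mem_ker, this]

end seq

/-- In a precompact group, small conjugation invariant neighbourhoods. -/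
lemma exists_conj_small {G : Type} [Group G] (t : TopologicalSpace G) (ht : PHG G t)
    (W : Set G) (hW : W ∈ @nhds G t 1) :
    ∃ V ∈ @nhds G t 1, ∀ v ∈ V, ∀ g : G, g * v * g⁻¹ ∈ W := by
  obtain ⟨hg, -, hpc⟩ := ht
  letI := t
  haveI := hg
  have h1 : Tendsto (fun p : G × G × G => p.1⁻¹ * p.2.1 * p.2.2) (𝓝 (1, 1, 1)) (𝓝 1) := by
    have : Continuous (fun p : G × G × G => p.1⁻¹ * p.2.1 * p.2.2) := by fun_prop
    have h := this.tendsto (1, 1, 1)
    simpa using h
  have h2 := h1 hW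
  rw [mem_map, nhds_prod_eq, nhds_prod_eq, mem_prod_iff] at h2
  obtain ⟨A, hA, B, hB, hAB⟩ := h2
  rw [mem_prod_iff] at hB
  obtain ⟨B1, hB1, B2, hB2, hB12⟩ := hB
  set V2 : Set G := A ∩ B1 ∩ B2 with hV2
  have hV2n : V2 ∈ 𝓝 (1 : G) := inter_mem (inter_mem hA hB1) hB2
  have hV2W : ∀ a ∈ V2, ∀ b ∈ V2, ∀ c ∈ V2, a⁻¹ * b * c ∈ W := by
    intro a ha b hb c hc
    have : (a, b, c) ∈ A ×ˢ B := ⟨ha.1.1, hB12 ⟨hb.1.2, hc.2⟩⟩
    exact hAB this
  obtain ⟨F, hF⟩ := hpc V2 hV2n
  refine ⟨⋂ f ∈ F, (fun v => f⁻¹ * v * f) ⁻¹' V2, ?_, ?_⟩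
  · rw [biInter_finset_mem]
    intro f _
    have hc : Continuous (fun v : G => f⁻¹ * v * f) := by fun_prop
    apply hc.continuousAt.preimage_mem_nhds
    simpa using hV2n
  · intro v hv g
    have hg' : g⁻¹ ∈ (F : Set G) * V2 := by rw [hF]; trivial
    rw [Set.mem_mul] at hg'
    obtain ⟨f, hf, w, hw, hfw⟩ := hg'
    have hv' : f⁻¹ * v * f ∈ V2 := by
      have := Set.mem_iInter₂.mp hv f hf
      exact this
    have hgeq : g = w⁻¹ * f⁻¹ := by
      rw [← mul_inv_rev, hfw, inv_inv]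
    have := hV2W w hw _ hv' w hw
    have e : g * v * g⁻¹ = w⁻¹ * (f⁻¹ * v * f) * w := by
      rw [hgeq]; group
    rw [e]; exact this

end Pool.Agent.Lib.MP_5893d4_al
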