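import Pool.Agent.Lib.MP_5893d4_al.Ring

set_option autoImplicit false
open scoped Pointwise
open Filter Topology

namespace Pool.Agent.Lib.MP_5893d4_al

/-- The set of translations by `r` with `|r|_7 = 1` and `|r - 1|_5 = 1`. -/
def E : Set (Aff R57) :=
  {g | g.u = 1 ∧ padicNorm 7 (g.a : ℚ) = 1 ∧ padicNorm 5 ((g.a : ℚ) - 1) = 1}

lemma h5 : ∀ q ∈ R57, padicNorm 5 q ≤ 1 := fun _ hq => hq.1
lemma h7 : ∀ q ∈ R57, padicNorm 7 q ≤ 1 := fun _ hq => hq.2

lemma norm5_pow (n : ℕ) (hn : n ≠ 0) : padicNorm 5 ((5 : ℚ) ^ n) < 1 := by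
  have := (padicNorm.int_lt_one_iff (p := 5) ((5 : ℤ) ^ n)).2 (dvd_pow_self _ hn)
  simpa using this

lemma norm7_pow (n : ℕ) (hn : n ≠ 0) : padicNorm 7 ((7 : ℚ) ^ n) < 1 := by
  have := (padicNorm.int_lt_one_iff (p := 7) ((7 : ℤ) ^ n)).2 (dvd_pow_self _ hn)
  simpa using this

lemma norm7_pow5 (n : ℕ) : padicNorm 7 ((5 : ℚ) ^ n) = 1 := by
  have := norm_int_eq_one 7 ((5 : ℤ) ^ n) (by
    intro h
    have := (Int.prime_iff_natAbs_prime.2 (by norm_num : Nat.Prime (7 : ℤ).natAbs)).dvd_of_dvd_pow h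
    norm_num at this)
  simpa using this

lemma norm5_pow7 (n : ℕ) : padicNorm 5 ((7 : ℚ) ^ n) = 1 := by
  have := norm_int_eq_one 5 ((7 : ℤ) ^ n) (by
    intro h
    have := (Int.prime_iff_natAbs_prime.2 (by norm_num : Nat.Prime (5 : ℤ).natAbs)).dvd_of_dvd_pow h
    norm_num at this)
  simpa using this

lemma add_one_norm (p : ℕ) [Fact p.Prime] (x y : ℚ) (hx : padicNorm p x < 1)
    (hy : padicNorm p y = 1) : padicNorm p (x + y) = 1 := by
  rw [padicNorm.add_eq_max_of_ne (by rw [hy]; exact hx.ne), hy]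
  exact max_eq_right hx.le

lemma mem_E5 (n : ℕ) (hn : n ≠ 0) : (⟨((5 : ℕ) : R57) ^ n, 1⟩ : Aff R57) ∈ E := by
  have e : (((((5 : ℕ) : R57) ^ n : R57)) : ℚ) = (5 : ℚ) ^ n := by push_cast; rfl
  refine ⟨rfl, ?_, ?_⟩
  · show padicNorm 7 (((((5 : ℕ) : R57) ^ n : R57)) : ℚ) = 1
    rw [e]; exact norm7_pow5 n
  · show padicNorm 5 ((((((5 : ℕ) : R57) ^ n : R57)) : ℚ) - 1) = 1
    rw [e, sub_eq_add_neg]
    exact add_one_norm 5 ((5 : ℚ) ^ n) (-1) (norm5_pow n hn) (by simp)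

lemma mem_E7 (n : ℕ) (hn : n ≠ 0) : (⟨1 + ((7 : ℕ) : R57) ^ n, 1⟩ : Aff R57) ∈ E := by
  have e : (((1 + ((7 : ℕ) : R57) ^ n : R57)) : ℚ) = 1 + (7 : ℚ) ^ n := by push_cast; rfl
  refine ⟨rfl, ?_, ?_⟩
  · show padicNorm 7 (((1 + ((7 : ℕ) : R57) ^ n : R57)) : ℚ) = 1
    rw [e, add_comm]
    exact add_one_norm 7 ((7 : ℚ) ^ n) 1 (norm7_pow n hn) (by simp)
  · show padicNorm 5 ((((1 + ((7 : ℕ) : R57) ^ n : R57)) : ℚ) - 1) = 1
    rw [e, add_sub_cancel_left]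
    exact norm5_pow7 n

/-- The translation by `1`. -/
def one' : Aff R57 := ⟨1, 1⟩

lemma one_mem_closure5 : (1 : Aff R57) ∈ @closure _ (adicTop 5 h5) E := by
  letI := adicTop 5 h5
  rw [mem_closure_iff_nhds]
  intro U hU
  have hU' : U ∈ @nhds _ (seqTop (red 5 h5)) 1 := hU
  rw [mem_nhds_seqTop (red 5 h5) (red_mono 5 h5)] at hU'
  obtain ⟨n, hn⟩ := hU'
  exact ⟨_, hn (pow_mem_ker 5 h5 n (n + 1) (Nat.le_succ n)), mem_E5 (n + 1) (Nat.succ_ne_zero n)⟩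

lemma one'_mem_closure7 : one' ∈ @closure _ (adicTop 7 h7) E := by
  letI := adicTop 7 h7
  haveI : IsTopologicalGroup (Aff R57) := (adicTop_PHG 7 h7).1
  rw [mem_closure_iff_nhds]
  intro U hU
  have hU1 : (fun g : Aff R57 => one' * g) ⁻¹' U ∈ 𝓝 (1 : Aff R57) := by
    have hc : Continuous (fun g : Aff R57 => one' * g) := by fun_prop
    apply hc.continuousAt.preimage_mem_nhds
    simpa using hU
  have hU' : (fun g : Aff R57 => one' * g) ⁻¹' U ∈ @nhds _ (seqTop (red 7 h7)) 1 := hU1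
  rw [mem_nhds_seqTop (red 7 h7) (red_mono 7 h7)] at hU'
  obtain ⟨n, hn⟩ := hU'
  refine ⟨_, hn (pow_mem_ker 7 h7 n (n + 1) (Nat.le_succ n)), ?_⟩
  have := mem_E7 (n + 1) (Nat.succ_ne_zero n)
  have e : one' * (⟨((7 : ℕ) : R57) ^ (n + 1), 1⟩ : Aff R57) = ⟨1 + ((7 : ℕ) : R57) ^ (n + 1), 1⟩ := by
    ext <;> simp [one']
  show one' * (⟨((7 : ℕ) : R57) ^ (n + 1), 1⟩ : Aff R57) ∈ E
  rw [e]
  exact this

/-- No precompact Hausdorff group topology has both `1` and `one'` in the closure of `E`. -/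
lemma no_top (t : TopologicalSpace (Aff R57)) (ht : PHG (Aff R57) t)
    (h0 : (1 : Aff R57) ∈ @closure _ t E) (h1 : one' ∈ @closure _ t E) : False := by
  letI := t
  haveI : IsTopologicalGroup (Aff R57) := ht.1
  haveI : T2Space (Aff R57) := ht.2.1
  -- neighbourhood of `1` missing `one'`
  have hne : (1 : Aff R57) ≠ one' := by
    intro h
    have := congrArg Aff.a h
    simp [one'] at this
  have hW : ({one'}ᶜ : Set (Aff R57)) ∈ 𝓝 (1 : Aff R57) := isOpen_compl_singleton.mem_nhds hne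
  -- fourth roots of the neighbourhood
  obtain ⟨W1, hW1, hW1m⟩ : ∃ W1 ∈ 𝓝 (1 : Aff R57), ∀ a ∈ W1, ∀ b ∈ W1, ∀ c ∈ W1, ∀ d ∈ W1,
      a * b * (c * d) ∈ ({one'}ᶜ : Set (Aff R57)) := by
    obtain ⟨V, hV, hVm⟩ := exists_nhds_one_split hW
    obtain ⟨V', hV', hVm'⟩ := exists_nhds_one_split hV
    refine ⟨V', hV', ?_⟩
    intro a ha b hb c hc d hd
    exact hVm _ (hVm' a ha b hb) _ (hVm' c hc d hd)
  obtain ⟨V, hV, hVc⟩ := exists_conj_small t ht W1 hW1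
  -- elements of `E` close to `1` and to `one'`
  rw [mem_closure_iff_nhds] at h0 h1
  obtain ⟨g, hgV, hgE⟩ := h0 V hV
  have hV1 : (fun g : Aff R57 => one'⁻¹ * g) ⁻¹' V ∈ 𝓝 one' := by
    have hc : Continuous (fun g : Aff R57 => one'⁻¹ * g) := by fun_prop
    apply hc.continuousAt.preimage_mem_nhds
    simpa using hV
  obtain ⟨k, hkV, hkE⟩ := h1 _ hV1
  obtain ⟨gu, g7, -⟩ := hgE
  obtain ⟨ku, -, k5⟩ := hkE
  set r : R57 := g.a with hr
  set s : R57 := k.a - 1 with hs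
  have s5 : padicNorm 5 (s : ℚ) = 1 := by simpa [hs] using k5
  have hg : g = ⟨r, 1⟩ := by ext <;> simp [hr, gu]
  have hk : one'⁻¹ * k = ⟨s, 1⟩ := by
    ext
    · simp [one', hs]; ring
    · simp [one', ku]
  have hrV : (⟨r, 1⟩ : Aff R57) ∈ V := by rw [← hg]; exact hgV
  have hsV : (⟨s, 1⟩ : Aff R57) ∈ V := by rw [← hk]; exact hkV
  have hconj : ∀ (x : R57) (u : (R57)ˣ), (⟨x, 1⟩ : Aff R57) ∈ V → (⟨u * x, 1⟩ : Aff R57) ∈ W1 := by
    intro x u hx
    have := hVc _ hx ⟨0, u⟩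
    have e : (⟨0, u⟩ : Aff R57) * ⟨x, 1⟩ * (⟨0, u⟩ : Aff R57)⁻¹ = ⟨u * x, 1⟩ := by
      ext <;> simp
    rw [e] at this
    exact this
  obtain ⟨u1, u2, u3, u4, hu⟩ := four_units r s g7 s5 1
  have := hW1m _ (hconj r u1 hrV) _ (hconj r u2 hrV) _ (hconj s u3 hsV) _ (hconj s u4 hsV)
  apply this
  rw [Set.mem_singleton_iff]
  have e : (⟨(u1 : R57) * r, 1⟩ : Aff R57) * ⟨(u2 : R57) * r, 1⟩ *
      ((⟨(u3 : R57) * s, 1⟩ : Aff R57) * ⟨(u4 : R57) * s, 1⟩) =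
      ⟨(u1 : R57) * r + (u2 : R57) * r + ((u3 : R57) * s + (u4 : R57) * s), 1⟩ := by
    ext <;> simp
  rw [e, ← hu]
  rfl

instance : Countable (Aff R57) := by
  haveI : Countable R57 := Subtype.countable
  haveI : Countable (R57)ˣ :=
    Function.Injective.countable (f := fun u : (R57)ˣ => (u : R57)) (fun u v h => Units.ext h)
  have : Countable (R57 × (R57)ˣ) := inferInstance
  exact Function.Injective.countable (f := fun x : Aff R57 => (x.a, x.u)) (by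
    intro x y hxy
    simp only [Prod.mk.injEq] at hxy
    exact Aff.ext hxy.1 hxy.2)

/-- The negation of the frozen problem statement. -/
theorem not_main :
    ¬ (∀ (G : Type) [Group G],
      Cardinal.mk G ≤ 2 ^ Cardinal.continuum →
      (∃ t : TopologicalSpace G,
        @IsTopologicalGroup G t _ ∧ @T2Space G t ∧
          ∀ U ∈ @nhds G t 1, ∃ F : Finset G, (F : Set G) * U = Set.univ) →
      ∀ ℰ : Set (Set G), ℰ.Countable →
        ∃ t : TopologicalSpace G,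
          (@IsTopologicalGroup G t _ ∧ @T2Space G t ∧
            ∀ U ∈ @nhds G t 1, ∃ F : Finset G, (F : Set G) * U = Set.univ) ∧
          ∀ E ∈ ℰ,
            @closure G t E =
              ⋂₀ {C : Set G | E ⊆ C ∧
                ∀ s : TopologicalSpace G,
                  (@IsTopologicalGroup G s _ ∧ @T2Space G s ∧
                    ∀ U ∈ @nhds G s 1, ∃ F : Finset G, (F : Set G) * U = Set.univ) →
                  @IsClosed G s C}) := by
  intro h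
  have hcard : Cardinal.mk (Aff R57) ≤ 2 ^ Cardinal.continuum :=
    (Cardinal.mk_le_aleph0).trans
      (Cardinal.aleph0_le_continuum.trans (Cardinal.cantor _).le)
  obtain ⟨t, ht, hE⟩ := h (Aff R57) hcard ⟨adicTop 5 h5, adicTop_PHG 5 h5⟩ {E}
    (Set.countable_singleton _)
  have hcl := hE E rfl
  apply no_top t ht
  · rw [hcl]
    rintro C ⟨hEC, hC⟩
    have hC5 := hC (adicTop 5 h5) (adicTop_PHG 5 h5)
    letI := adicTop 5 h5
    exact closure_minimal hEC hC5 one_mem_closure5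
  · rw [hcl]
    rintro C ⟨hEC, hC⟩
    have hC7 := hC (adicTop 7 h7) (adicTop_PHG 7 h7)
    letI := adicTop 7 h7
    exact closure_minimal hEC hC7 one'_mem_closure7

end Pool.Agent.Lib.MP_5893d4_al
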