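import Pool.Agent.Lib.MP_5893d4_al.Basic

set_option autoImplicit false
open scoped Pointwise
open Filter Topology

namespace Pool.Agent.Lib.MP_5893d4_al

/-- The rationals that are integral at `5` and at `7`. -/
def R57 : Subring ℚ where
  carrier := {q | padicNorm 5 q ≤ 1 ∧ padicNorm 7 q ≤ 1}
  mul_mem' := by
    rintro a b ⟨ha, ha'⟩ ⟨hb, hb'⟩
    refine ⟨?_, ?_⟩
    · rw [padicNorm.mul]; exact mul_le_one₀ ha (padicNorm.nonneg _) hb
    · rw [padicNorm.mul]; exact mul_le_one₀ ha' (padicNorm.nonneg _) hb'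
  one_mem' := by simp
  add_mem' := by
    rintro a b ⟨ha, ha'⟩ ⟨hb, hb'⟩
    exact ⟨padicNorm.nonarchimedean.trans (max_le ha hb),
      padicNorm.nonarchimedean.trans (max_le ha' hb')⟩
  zero_mem' := by simp
  neg_mem' := by
    rintro a ⟨ha, ha'⟩
    exact ⟨by rw [padicNorm.neg]; exact ha, by rw [padicNorm.neg]; exact ha'⟩

lemma mem_R57 (q : ℚ) : q ∈ R57 ↔ padicNorm 5 q ≤ 1 ∧ padicNorm 7 q ≤ 1 := Iff.rfl

/-- Units of `R57` from rationals with both norms one. -/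
def mkUnit (q : ℚ) (h5 : padicNorm 5 q = 1) (h7 : padicNorm 7 q = 1) : (R57)ˣ where
  val := ⟨q, (mem_R57 q).2 ⟨h5.le, h7.le⟩⟩
  inv := ⟨q⁻¹, (mem_R57 _).2 ⟨by
      have := padicNorm.div (p := 5) 1 q
      rw [one_div] at this
      rw [this, h5]; simp, by
      have := padicNorm.div (p := 7) 1 q
      rw [one_div] at this
      rw [this, h7]; simp⟩⟩
  val_inv := by
    have hq : q ≠ 0 := by rintro rfl; simp at h5
    apply Subtype.ext
    simp [hq]
  inv_val := by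
    have hq : q ≠ 0 := by rintro rfl; simp at h5
    apply Subtype.ext
    simp [hq]

@[simp] lemma mkUnit_val (q : ℚ) (h5 : padicNorm 5 q = 1) (h7 : padicNorm 7 q = 1) :
    (((mkUnit q h5 h7 : (R57)ˣ) : R57) : ℚ) = q := rfl

/-- Nonarchimedean: if two candidates are both bad, their difference is small. -/
lemma bad_sub (p : ℕ) [Fact p.Prime] (x u v : ℚ) (hu : padicNorm p (x - u) < 1)
    (hv : padicNorm p (x - v) < 1) : padicNorm p (u - v) < 1 := by
  have h : u - v = (x - v) - (x - u) := by ring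
  rw [h]
  exact lt_of_le_of_lt padicNorm.sub (max_lt hv hu)

lemma norm_int_eq_one (p : ℕ) [Fact p.Prime] (m : ℤ) (h : ¬ (p : ℤ) ∣ m) :
    padicNorm p (m : ℚ) = 1 := (padicNorm.int_eq_one_iff m).2 h

/-- Every element of `R57` is the sum of two units. -/
lemma sum_two_units (x : R57) : ∃ u v : (R57)ˣ, x = (u : R57) + (v : R57) := by
  obtain ⟨x, hx⟩ := x
  obtain ⟨h5, h7⟩ := (mem_R57 x).1 hx
  -- candidates are 1, -1, 2
  have key : ∀ c : ℚ, padicNorm 5 c = 1 → padicNorm 7 c = 1 → padicNorm 5 (x - c) = 1 →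
      padicNorm 7 (x - c) = 1 → ∃ u v : (R57)ˣ, (⟨x, hx⟩ : R57) = (u : R57) + (v : R57) := by
    intro c hc5 hc7 hx5 hx7
    refine ⟨mkUnit c hc5 hc7, mkUnit (x - c) hx5 hx7, ?_⟩
    apply Subtype.ext
    simp
  have le5 : ∀ c : ℚ, padicNorm 5 c = 1 → padicNorm 5 (x - c) ≤ 1 := by
    intro c hc
    exact padicNorm.sub.trans (max_le h5 hc.le)
  have le7 : ∀ c : ℚ, padicNorm 7 c = 1 → padicNorm 7 (x - c) ≤ 1 := by
    intro c hc
    exact padicNorm.sub.trans (max_le h7 hc.le)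
  have a5 : padicNorm 5 (1 : ℚ) = 1 := by simp
  have a7 : padicNorm 7 (1 : ℚ) = 1 := by simp
  have b5 : padicNorm 5 (-1 : ℚ) = 1 := by simp
  have b7 : padicNorm 7 (-1 : ℚ) = 1 := by simp
  have c5 : padicNorm 5 (2 : ℚ) = 1 := by
    have := norm_int_eq_one 5 2 (by norm_num)
    simpa using this
  have c7 : padicNorm 7 (2 : ℚ) = 1 := by
    have := norm_int_eq_one 7 2 (by norm_num)
    simpa using this
  have d5 : padicNorm 5 (3 : ℚ) = 1 := by
    have := norm_int_eq_one 5 3 (by norm_num)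
    simpa using this
  have d7 : padicNorm 7 (3 : ℚ) = 1 := by
    have := norm_int_eq_one 7 3 (by norm_num)
    simpa using this
  by_contra hcon
  have hk : ∀ c : ℚ, padicNorm 5 c = 1 → padicNorm 7 c = 1 →
      padicNorm 5 (x - c) < 1 ∨ padicNorm 7 (x - c) < 1 := by
    intro c hc5 hc7
    by_contra hh
    push Not at hh
    exact hcon (key c hc5 hc7 (le_antisymm (le5 c hc5) hh.1) (le_antisymm (le7 c hc7) hh.2))
  have no5 : ∀ c d : ℚ, padicNorm 5 (c - d) = 1 → padicNorm 5 (x - c) < 1 →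
      padicNorm 5 (x - d) < 1 → False := by
    intro c d hcd h1 h2
    exact absurd (bad_sub 5 x c d h1 h2) (by rw [hcd]; exact lt_irrefl _)
  have no7 : ∀ c d : ℚ, padicNorm 7 (c - d) = 1 → padicNorm 7 (x - c) < 1 →
      padicNorm 7 (x - d) < 1 → False := by
    intro c d hcd h1 h2
    exact absurd (bad_sub 7 x c d h1 h2) (by rw [hcd]; exact lt_irrefl _)
  have e1 : (1 : ℚ) - (-1) = 2 := by norm_num
  have e2 : (2 : ℚ) - (-1) = 3 := by norm_num
  have e3 : (2 : ℚ) - 1 = 1 := by norm_num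
  rcases hk 1 a5 a7 with h1 | h1 <;> rcases hk (-1) b5 b7 with h2 | h2 <;>
    rcases hk 2 c5 c7 with h3 | h3
  · exact no5 1 (-1) (by rw [e1]; exact c5) h1 h2
  · exact no5 1 (-1) (by rw [e1]; exact c5) h1 h2
  · exact no5 2 1 (by rw [e3]; exact a5) h3 h1
  · exact no7 2 (-1) (by rw [e2]; exact d7) h3 h2
  · exact no5 2 (-1) (by rw [e2]; exact d5) h3 h2
  · exact no7 2 1 (by rw [e3]; exact a7) h3 h1
  · exact no7 1 (-1) (by rw [e1]; exact c7) h1 h2
  · exact no7 1 (-1) (by rw [e1]; exact c7) h1 h2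

/-- If `|r|_7 = 1` and `|s|_5 = 1` then every `x` in `R57` is
`u1 r + u2 r + u3 s + u4 s` with units. -/
lemma four_units (r s : R57) (hr : padicNorm 7 (r : ℚ) = 1) (hs : padicNorm 5 (s : ℚ) = 1)
    (x : R57) : ∃ u1 u2 u3 u4 : (R57)ˣ,
      x = (u1 : R57) * r + (u2 : R57) * r + ((u3 : R57) * s + (u4 : R57) * s) := by
  -- w = 5 r + 7 s
  have hr5 := ((mem_R57 _).1 r.2).1
  have hs7 := ((mem_R57 _).1 s.2).2
  have n55 : padicNorm 5 (5 : ℚ) < 1 := by
    have := padicNorm.padicNorm_p_lt_one_of_prime (p := 5)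
    simpa using this
  have n77 : padicNorm 7 (7 : ℚ) < 1 := by
    have := padicNorm.padicNorm_p_lt_one_of_prime (p := 7)
    simpa using this
  have n57 : padicNorm 5 (7 : ℚ) = 1 := by
    have := norm_int_eq_one 5 7 (by norm_num)
    simpa using this
  have n75 : padicNorm 7 (5 : ℚ) = 1 := by
    have := norm_int_eq_one 7 5 (by norm_num)
    simpa using this
  have A5 : padicNorm 5 (5 * (r : ℚ)) < 1 := by
    rw [padicNorm.mul]
    exact mul_lt_one_of_nonneg_of_lt_one_left (padicNorm.nonneg _) n55 hr5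
  have B5 : padicNorm 5 (7 * (s : ℚ)) = 1 := by
    rw [padicNorm.mul, n57, hs, one_mul]
  have A7 : padicNorm 7 (5 * (r : ℚ)) = 1 := by
    rw [padicNorm.mul, n75, hr, one_mul]
  have B7 : padicNorm 7 (7 * (s : ℚ)) < 1 := by
    rw [padicNorm.mul]
    exact mul_lt_one_of_nonneg_of_lt_one_left (padicNorm.nonneg _) n77 hs7
  have w5 : padicNorm 5 (5 * (r : ℚ) + 7 * s) = 1 := by
    rw [padicNorm.add_eq_max_of_ne (by rw [B5]; exact A5.ne), B5]
    exact max_eq_right A5.le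
  have w7 : padicNorm 7 (5 * (r : ℚ) + 7 * s) = 1 := by
    rw [padicNorm.add_eq_max_of_ne (by rw [A7]; exact B7.ne'), A7]
    exact max_eq_left B7.le
  set w : (R57)ˣ := mkUnit _ w5 w7 with hw
  have hwv : (w : R57) = 5 * r + 7 * s := by
    apply Subtype.ext
    rw [hw, mkUnit_val]
    rfl
  obtain ⟨u1, u2, h12⟩ := sum_two_units ((w⁻¹ : (R57)ˣ) * x * 5)
  obtain ⟨u3, u4, h34⟩ := sum_two_units ((w⁻¹ : (R57)ˣ) * x * 7)
  refine ⟨u1, u2, u3, u4, ?_⟩
  rw [← add_mul, ← add_mul, ← h12, ← h34]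
  have : ((w⁻¹ : (R57)ˣ) : R57) * w = 1 := by simp
  calc x = (((w⁻¹ : (R57)ˣ) : R57) * w) * x := by rw [this, one_mul]
    _ = _ := by rw [hwv]; ring

/-- The embedding in the `p`-adic integers. -/
noncomputable def toPadic (p : ℕ) [Fact p.Prime] (h : ∀ q ∈ R57, padicNorm p q ≤ 1) :
    R57 →+* ℤ_[p] where
  toFun x := ⟨((x : ℚ) : ℚ_[p]), by
    rw [Padic.eq_padicNorm]
    exact_mod_cast h x x.2⟩
  map_one' := by apply Subtype.ext; simp
  map_zero' := by apply Subtype.ext; simp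
  map_add' := by
    intro x y
    apply Subtype.ext
    show (((x + y : R57) : ℚ) : ℚ_[p]) = ((x : ℚ) : ℚ_[p]) + ((y : ℚ) : ℚ_[p])
    simp
  map_mul' := by
    intro x y
    apply Subtype.ext
    show (((x * y : R57) : ℚ) : ℚ_[p]) = ((x : ℚ) : ℚ_[p]) * ((y : ℚ) : ℚ_[p])
    simp

lemma toPadic_inj (p : ℕ) [Fact p.Prime] (h : ∀ q ∈ R57, padicNorm p q ≤ 1) :
    Function.Injective (toPadic p h) := by
  intro x y hxy
  have h1 : ((x : ℚ) : ℚ_[p]) = ((y : ℚ) : ℚ_[p]) := congrArg Subtype.val hxy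
  exact Subtype.ext (by exact_mod_cast h1)

/-- The reductions mod `p ^ n`. -/
noncomputable def red (p : ℕ) [Fact p.Prime] (h : ∀ q ∈ R57, padicNorm p q ≤ 1) (n : ℕ) :
    Aff R57 →* Aff (ZMod (p ^ n)) :=
  Aff.map ((PadicInt.toZModPow n).comp (toPadic p h))

instance {R : Type} [CommRing R] [Finite R] : Finite (Aff R) := by
  haveI : Finite Rˣ := inferInstance
  exact Finite.of_injective (fun x : Aff R => (x.a, x.u)) (by
    intro x y hxy
    simp only [Prod.mk.injEq] at hxy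
    exact Aff.ext hxy.1 hxy.2)

instance (p : ℕ) [Fact p.Prime] (n : ℕ) : Finite (ZMod (p ^ n)) := by
  haveI : NeZero (p ^ n) := ⟨pow_ne_zero _ (Fact.out : p.Prime).ne_zero⟩
  infer_instance

lemma mem_ker_red (p : ℕ) [Fact p.Prime] (h : ∀ q ∈ R57, padicNorm p q ≤ 1) (n : ℕ)
    (g : Aff R57) : g ∈ (red p h n).ker ↔
      PadicInt.toZModPow n (toPadic p h g.a) = 0 ∧
      PadicInt.toZModPow n (toPadic p h (g.u : R57)) = 1 := by
  rw [MonoidHom.mem_ker, Aff.ext_iff]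
  simp only [red, Aff.map_a, Aff.map_u, Aff.one_a, Aff.one_u]
  rw [Units.ext_iff]
  rfl

lemma red_mono (p : ℕ) [Fact p.Prime] (h : ∀ q ∈ R57, padicNorm p q ≤ 1) (m n : ℕ)
    (hmn : m ≤ n) : (red p h n).ker ≤ (red p h m).ker := by
  intro g hg
  rw [mem_ker_red] at hg ⊢
  rw [← PadicInt.cast_toZModPow m n hmn, ← PadicInt.cast_toZModPow m n hmn, hg.1, hg.2]
  constructor
  · exact map_zero (ZMod.castHom (pow_dvd_pow p hmn) (ZMod (p ^ m)))
  · exact map_one (ZMod.castHom (pow_dvd_pow p hmn) (ZMod (p ^ m)))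

lemma red_inj (p : ℕ) [Fact p.Prime] (h : ∀ q ∈ R57, padicNorm p q ≤ 1) (g : Aff R57)
    (hg : ∀ n, red p h n g = 1) : g = 1 := by
  have hg' : ∀ n, g ∈ (red p h n).ker := hg
  simp only [mem_ker_red] at hg'
  have ha : toPadic p h g.a = 0 := by
    rw [← PadicInt.ext_of_toZModPow]
    intro n
    rw [(hg' n).1, map_zero]
  have hu : toPadic p h (g.u : R57) = 1 := by
    rw [← PadicInt.ext_of_toZModPow]
    intro n
    rw [(hg' n).2, map_one]
  apply Aff.ext
  · exact toPadic_inj p h (by rw [ha, Aff.one_a, map_zero])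
  · apply Units.ext
    exact toPadic_inj p h (by rw [hu]; simp)

/-- The `p`-adic topology on the affine group. -/
noncomputable def adicTop (p : ℕ) [Fact p.Prime] (h : ∀ q ∈ R57, padicNorm p q ≤ 1) :
    TopologicalSpace (Aff R57) := seqTop (red p h)

lemma adicTop_PHG (p : ℕ) [Fact p.Prime] (h : ∀ q ∈ R57, padicNorm p q ≤ 1) :
    PHG (Aff R57) (adicTop p h) :=
  seqTop_PHG (red p h) (red_mono p h) (red_inj p h)

lemma pow_mem_ker (p : ℕ) [Fact p.Prime] (h : ∀ q ∈ R57, padicNorm p q ≤ 1) (n m : ℕ)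
    (hnm : n ≤ m) : (⟨(p : R57) ^ m, 1⟩ : Aff R57) ∈ (red p h n).ker := by
  rw [mem_ker_red]
  constructor
  · simp only [map_pow, map_natCast]
    have : ((p : ZMod (p ^ n))) ^ m = 0 := by
      have h1 : ((p ^ m : ℕ) : ZMod (p ^ n)) = 0 := by
        rw [ZMod.natCast_eq_zero_iff]
        exact pow_dvd_pow p hnm
      exact_mod_cast h1
    exact this
  · simp

end Pool.Agent.Lib.MP_5893d4_al
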